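import Mathlib

/-!
# MP_0a00ee_co, Q1: long induced cycles in reduced clique graphs

For every `m ≥ 2` there is a finite chordal graph whose reduced clique graph contains an induced
cycle with `2 * m` vertices. In particular the assertion of Q1 is false.
-/

set_option autoImplicit false

open SimpleGraph

namespace Pool.Agent.Results.MP_0a00ee_co.InducedEvenCycles

/-- `G` is chordal: it has no induced cycle with at least `4` vertices. -/
def IsChordal {V : Type} (G : SimpleGraph V) : Prop :=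
  ∀ n : ℕ, 4 ≤ n → IsEmpty (cycleGraph n ↪g G)

/-- The maximal cliques of `G`, identified with their vertex sets. -/
abbrev MaxClique {V : Type} (G : SimpleGraph V) : Type :=
  {K : Set V // Maximal (fun s : Set V => G.IsClique s) K}

/-- `K` and `K'` form a separating pair: they meet, and every path of `G` from a vertex of
`K \ K'` to a vertex of `K' \ K` meets `K ∩ K'`. -/
def SeparatingPair {V : Type} (G : SimpleGraph V) (K K' : Set V) : Prop :=
  (K ∩ K').Nonempty ∧ ∀ u ∈ K \ K', ∀ v ∈ K' \ K, ∀ p : G.Walk u v, p.IsPath →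
    ∃ w ∈ p.support, w ∈ K ∩ K'

/-- The reduced clique graph of `G`: its vertices are the maximal cliques, and two distinct ones
are adjacent exactly when they form a separating pair. -/
def reducedCliqueGraph {V : Type} (G : SimpleGraph V) : SimpleGraph (MaxClique G) where
  Adj K K' := K ≠ K' ∧ SeparatingPair G K.1 K'.1
  symm := ⟨by
    rintro K K' ⟨h1, h2, h3⟩
    refine ⟨h1.symm, by rwa [Set.inter_comm], fun u hu v hv p hp => ?_⟩
    obtain ⟨w, hw, hw'⟩ := h3 v hv u hu p.reverse hp.reverse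
    refine ⟨w, ?_, by rwa [Set.inter_comm]⟩
    simpa using hw⟩
  loopless := ⟨fun K h => h.1 rfl⟩

section general

variable {L ι : Type} (T : ι → Set L)

/-- The graph with a clique `L` and, for every `k : ι`, one further vertex with neighbourhood
`T k ⊆ L`. -/
def GT : SimpleGraph (L ⊕ ι) where
  Adj x y := match x, y with
    | .inl a, .inl b => a ≠ b
    | .inl a, .inr k => a ∈ T k
    | .inr k, .inl a => a ∈ T k
    | .inr _, .inr _ => False
  symm := ⟨by
    rintro (a | k) (b | l) h
    · exact Ne.symm h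
    · exact h
    · exact h
    · exact h⟩
  loopless := ⟨by
    rintro (a | k) h
    · exact h rfl
    · exact h⟩

lemma adj_ll (a b : L) : (GT T).Adj (.inl a) (.inl b) ↔ a ≠ b := Iff.rfl
lemma adj_lr (a : L) (k : ι) : (GT T).Adj (.inl a) (.inr k) ↔ a ∈ T k := Iff.rfl
lemma adj_rl (a : L) (k : ι) : (GT T).Adj (.inr k) (.inl a) ↔ a ∈ T k := Iff.rfl
lemma adj_rr (k l : ι) : ¬ (GT T).Adj (.inr k) (.inr l) := fun h => h

lemma GT_chordal : IsChordal (GT T) := by
  intro n hn
  obtain ⟨m, rfl⟩ : ∃ m, n = m + 4 := ⟨n - 4, by omega⟩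
  refine ⟨fun f => ?_⟩
  have hadj : ∀ i j, (GT T).Adj (f i) (f j) ↔ (cycleGraph (m + 4)).Adj i j :=
    fun i j => f.map_rel_iff
  -- two non-adjacent distinct neighbours of a vertex
  have hn1 : ∀ i : Fin (m + 4), (cycleGraph (m + 4)).Adj i (i + 1) := by
    intro i
    rw [cycleGraph_adj]
    right; simp
  have hn2 : ∀ i : Fin (m + 4), (cycleGraph (m + 4)).Adj i (i - 1) := by
    intro i
    rw [cycleGraph_adj]
    left; simp
  have h2 : (1 : Fin (m + 4)) + 1 ≠ 0 ∧ (1 : Fin (m + 4)) + 1 ≠ 1 ∧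
      (1 : Fin (m + 4)) + 1 + 1 ≠ 0 := by
    refine ⟨?_, ?_, ?_⟩ <;>
    · rw [Ne, Fin.ext_iff]
      simp [Fin.val_add, Nat.mod_eq_of_lt]
  have hn3 : ∀ i : Fin (m + 4), ¬ (cycleGraph (m + 4)).Adj (i + 1) (i - 1) := by
    intro i h
    rw [cycleGraph_adj] at h
    rcases h with h | h
    · have : (1 : Fin (m + 4)) + 1 = 1 := by
        calc (1 : Fin (m + 4)) + 1 = i + 1 - (i - 1) := by abel
          _ = 1 := h
      exact h2.2.1 this
    · have : (1 : Fin (m + 4)) + 1 + 1 = 0 := by
        calc (1 : Fin (m + 4)) + 1 + 1 = 1 - (i - 1 - (i + 1)) := by abel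
          _ = 0 := by rw [h]; abel
      exact h2.2.2 this
  have hn4 : ∀ i : Fin (m + 4), i + 1 ≠ i - 1 := by
    intro i h
    apply h2.1
    calc (1 : Fin (m + 4)) + 1 = i + 1 - (i - 1) := by abel
      _ = 0 := by rw [h]; abel
  have hl : ∀ i, ∃ a, f i = .inl a := by
    intro i
    rcases hfi : f i with a | k
    · exact ⟨a, rfl⟩
    · exfalso
      have h5 := (hadj i (i + 1)).2 (hn1 i)
      have h6 := (hadj i (i - 1)).2 (hn2 i)
      rw [hfi] at h5 h6
      rcases hb : f (i + 1) with b | b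
      · rcases hc : f (i - 1) with c | c
        · apply hn3 i
          rw [← hadj, hb, hc, adj_ll]
          intro hbc
          apply hn4 i
          apply f.injective
          rw [hb, hc, hbc]
        · rw [hc] at h6
          exact adj_rr T _ _ h6
      · rw [hb] at h5
        exact adj_rr T _ _ h5
  obtain ⟨a, ha⟩ := hl (0 + 1)
  obtain ⟨b, hb⟩ := hl (0 - 1)
  apply hn3 0
  rw [← hadj, ha, hb, adj_ll]
  intro hab
  apply hn4 0
  apply f.injective
  rw [ha, hb, hab]

/-- the vertex set of the `k`-th maximal clique -/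
def KS (k : ι) : Set (L ⊕ ι) := {x | (∃ a ∈ T k, x = .inl a) ∨ x = .inr k}

lemma inl_mem_KS (a : L) (k : ι) : (.inl a : L ⊕ ι) ∈ KS T k ↔ a ∈ T k := by
  simp [KS]

lemma inr_mem_KS (l k : ι) : (.inr l : L ⊕ ι) ∈ KS T k ↔ l = k := by
  simp [KS]

/-- the `k`-th maximal clique -/
def KM (k : ι) : MaxClique (GT T) := ⟨KS T k, by
  constructor
  · rintro (a | l) hx (b | l') hy hxy
    · rw [adj_ll]; exact fun h => hxy (by rw [h])
    · rw [inr_mem_KS] at hy
      subst hy
      exact (inl_mem_KS T a _).1 hx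
    · rw [inr_mem_KS] at hx
      subst hx
      exact (inl_mem_KS T b _).1 hy
    · rw [inr_mem_KS] at hx hy
      exact absurd (by rw [hx, hy]) hxy
  · intro s hs hKs x hx
    have hk : (.inr k : L ⊕ ι) ∈ s := hKs ((inr_mem_KS T k k).2 rfl)
    rcases x with a | l
    · rw [inl_mem_KS]
      exact hs hk hx (by simp)
    · rw [inr_mem_KS]
      by_contra hlk
      exact adj_rr T l k (hs hx hk (by simpa using hlk))⟩

lemma KM_inj : Function.Injective (KM T) := by
  intro k l h
  have h1 : (.inr k : L ⊕ ι) ∈ (KM T l).1 := by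
    rw [← h]
    exact (inr_mem_KS T k k).2 rfl
  exact (inr_mem_KS T k l).1 h1

lemma sep_of_subset {k l : ι} (hne : (T k).Nonempty) (h : T k ⊆ T l) :
    SeparatingPair (GT T) (KS T k) (KS T l) := by
  refine ⟨?_, ?_⟩
  · obtain ⟨a, ha⟩ := hne
    exact ⟨.inl a, (inl_mem_KS T a k).2 ha, (inl_mem_KS T a l).2 (h ha)⟩
  · rintro (a | j) hu v hv p hp
    · exact absurd ((inl_mem_KS T a l).2 (h ((inl_mem_KS T a k).1 hu.1))) hu.2
    · have hj : j = k := (inr_mem_KS T j k).1 hu.1
      subst hj
      cases p with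
      | nil => exact absurd hv.1 hu.2
      | @cons _ w _ hw q =>
        rcases w with a | i
        · refine ⟨.inl a, ?_, (inl_mem_KS T a _).2 hw, (inl_mem_KS T a _).2 (h hw)⟩
          rw [Walk.support_cons]
          exact List.mem_cons_of_mem _ (Walk.start_mem_support q)
        · exact absurd hw (adj_rr T _ _)

lemma adj_iff {k l : ι} : (reducedCliqueGraph (GT T)).Adj (KM T k) (KM T l) ↔
    k ≠ l ∧ (T k ∩ T l).Nonempty ∧ (T k ⊆ T l ∨ T l ⊆ T k) := by
  constructor
  · rintro ⟨h1, h2, h3⟩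
    have hkl : k ≠ l := fun h => h1 (by rw [h])
    refine ⟨hkl, ?_, ?_⟩
    · obtain ⟨x, hx, hy⟩ := h2
      rcases x with a | j
      · exact ⟨a, (inl_mem_KS T a k).1 hx, (inl_mem_KS T a l).1 hy⟩
      · exact absurd (((inr_mem_KS T j k).1 hx).symm.trans ((inr_mem_KS T j l).1 hy)) hkl
    · by_contra hcon
      push Not at hcon
      obtain ⟨h4, h5⟩ := hcon
      obtain ⟨a, hak, hal⟩ := Set.not_subset.1 h4
      obtain ⟨b, hbl, hbk⟩ := Set.not_subset.1 h5
      have hab : (GT T).Adj (.inl a) (.inl b) := by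
        rw [adj_ll]
        rintro rfl
        exact hal hbl
      obtain ⟨w, hw, hw1, hw2⟩ := h3 (.inl a)
        ⟨(inl_mem_KS T a k).2 hak, fun h => hal ((inl_mem_KS T a l).1 h)⟩ (.inl b)
        ⟨(inl_mem_KS T b l).2 hbl, fun h => hbk ((inl_mem_KS T b k).1 h)⟩
        (Walk.cons hab Walk.nil) (by simp [Walk.cons_isPath_iff, hab.ne])
      simp only [Walk.support_cons, Walk.support_nil, List.mem_cons, List.not_mem_nil,
        or_false] at hw
      rcases hw with rfl | rfl
      · exact hal ((inl_mem_KS T a l).1 hw2)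
      · exact hbk ((inl_mem_KS T b k).1 hw1)
  · rintro ⟨h1, h2, h3⟩
    have hne : KM T k ≠ KM T l := fun h => h1 (KM_inj T h)
    rcases h3 with h3 | h3
    · exact ⟨hne, sep_of_subset T (h2.mono Set.inter_subset_left) h3⟩
    · have : (reducedCliqueGraph (GT T)).Adj (KM T l) (KM T k) :=
        ⟨hne.symm, sep_of_subset T (h2.mono Set.inter_subset_right) h3⟩
      exact this.symm

end general

/-- In an even cycle adjacent vertices have different parity. -/
lemma parity {m : ℕ} {i j : Fin (2 * m)} (h : (cycleGraph (2 * m)).Adj i j) :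
    Odd i.val ↔ ¬ Odd j.val := by
  rw [cycleGraph_adj'] at h
  have hi := i.2
  have hj := j.2
  have key : ∀ a b : Fin (2 * m), (a - b).val = 1 → (Odd a.val ↔ ¬ Odd b.val) := by
    intro a b hab
    rw [Fin.sub_def] at hab
    simp only at hab
    have ha := a.2
    have hb := b.2
    have h1 : (2 * m - b.val + a.val) % (2 * m) = 1 := hab
    rcases lt_or_ge (2 * m - b.val + a.val) (2 * m) with h2 | h2
    · rw [Nat.mod_eq_of_lt h2] at h1
      rw [Nat.odd_iff, Nat.odd_iff]
      omega
    · rw [Nat.mod_eq_sub_mod h2, Nat.mod_eq_of_lt (by omega)] at h1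
      rw [Nat.odd_iff, Nat.odd_iff]
      omega
  rcases h with h | h
  · exact key i j h
  · have := key j i h
    tauto

/-- For every `m ≥ 2` there is a finite chordal graph whose reduced clique graph contains an
induced cycle with `2 * m` vertices. -/
theorem result : ∀ m : ℕ, 2 ≤ m → ∃ (V : Type) (_ : Finite V) (G : SimpleGraph V),
    IsChordal G ∧ Nonempty (cycleGraph (2 * m) ↪g reducedCliqueGraph G) := by
  intro m hm
  let C := cycleGraph (2 * m)
  let T : Fin (2 * m) → Set (Fin (2 * m)) := fun k => {j | j = k ∨ (Odd k.val ∧ C.Adj k j)}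
  have hT : ∀ k j, j ∈ T k ↔ j = k ∨ (Odd k.val ∧ C.Adj k j) := fun k j => Iff.rfl
  refine ⟨Fin (2 * m) ⊕ Fin (2 * m), inferInstance, GT T, GT_chordal T, ⟨⟨⟨KM T, KM_inj T⟩, ?_⟩⟩⟩
  intro k l
  show (reducedCliqueGraph (GT T)).Adj (KM T k) (KM T l) ↔ C.Adj k l
  rw [adj_iff]
  constructor
  · rintro ⟨hkl, ⟨j, hj1, hj2⟩, h⟩
    have h' : k ∈ T l ∨ l ∈ T k := by
      rcases h with h | h
      · exact Or.inl (h ((hT k k).2 (Or.inl rfl)))
      · exact Or.inr (h ((hT l l).2 (Or.inl rfl)))
    rcases h' with h' | h'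
    · rcases (hT l k).1 h' with h' | h'
      · exact absurd h' hkl
      · exact h'.2.symm
    · rcases (hT k l).1 h' with h' | h'
      · exact absurd h'.symm hkl
      · exact h'.2
  · intro h
    have hp := parity h
    refine ⟨h.ne, ?_, ?_⟩
    · by_cases hk : Odd k.val
      · exact ⟨l, (hT k l).2 (Or.inr ⟨hk, h⟩), (hT l l).2 (Or.inl rfl)⟩
      · exact ⟨k, (hT k k).2 (Or.inl rfl), (hT l k).2 (Or.inr ⟨by tauto, h.symm⟩)⟩
    · by_cases hk : Odd k.val
      · right
        intro j hj
        rcases (hT l j).1 hj with rfl | hj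
        · exact (hT k j).2 (Or.inr ⟨hk, h⟩)
        · exact absurd hj.1 (hp.1 hk)
      · left
        intro j hj
        rcases (hT k j).1 hj with rfl | hj
        · exact (hT l j).2 (Or.inr ⟨by tauto, h.symm⟩)
        · exact absurd hj.1 hk

end Pool.Agent.Results.MP_0a00ee_co.InducedEvenCycles
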